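import Mathlib

set_option autoImplicit false

namespace Pool.Agent.Results.MP_aa1485_co.Forest

open SimpleGraph Submodule

variable {V : Type}

/-- the vertices that end up blue when skew forcing starts from `S` -/
inductive Blue (G : SimpleGraph V) (S : Set V) : V → Prop
  | init {v : V} : v ∈ S → Blue G S v
  | force {u w : V} : G.Adj u w → (∀ x, G.Adj u x → x ≠ w → Blue G S x) → Blue G S w

def Forcing (G : SimpleGraph V) (S : Set V) : Prop := ∀ v, Blue G S v

def Fort (G : SimpleGraph V) (F : Set V) : Prop :=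
  F.Nonempty ∧ ∀ v, (G.neighborSet v ∩ F).ncard ≠ 1

def Ir (G : SimpleGraph V) (S : Set V) : Prop := ∀ u ∈ S, ∃ F, Fort G F ∧ F ∩ S = {u}

noncomputable def zir (G : SimpleGraph V) : ℕ := sInf {k | ∃ S, Maximal (Ir G) S ∧ S.ncard = k}
noncomputable def z (G : SimpleGraph V) : ℕ := sInf {k | ∃ S, Forcing G S ∧ S.ncard = k}
noncomputable def zbar (G : SimpleGraph V) : ℕ :=
  sSup {k | ∃ S, Minimal (Forcing G) S ∧ S.ncard = k}
noncomputable def zIR (G : SimpleGraph V) : ℕ := sSup {k | ∃ S, Maximal (Ir G) S ∧ S.ncard = k}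

variable [Fintype V] {G : SimpleGraph V}

omit [Fintype V] in
lemma dual {E ι : Type} [AddCommGroup E] [Module ℚ E] [Finite ι] (f : ι → E →ₗ[ℚ] ℚ) (T : Set ι)
    (g : E →ₗ[ℚ] ℚ) : g ∈ span ℚ (f '' T) ↔ ∀ x, (∀ v ∈ T, f v x = 0) → g x = 0 := by
  refine ⟨fun h x hx => ?_, fun h => ?_⟩
  · refine span_induction (fun _ ⟨v, hv, e⟩ => e ▸ hx v hv) rfl (fun a b _ _ p q => ?_)
      (fun a b _ p => ?_) h
    · simp [p, q]
    · simp [p]
  · rw [Set.image_eq_range]
    exact mem_span_of_iInf_ker_le_ker fun x hx =>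
      h x fun v hv => (Submodule.mem_iInf _).1 hx ⟨v, hv⟩

omit [Fintype V] in
lemma other {F : Set V} (h : Fort G F) {v w : V} (a : G.Adj v w) (hw : w ∈ F) :
    ∃ y, G.Adj v y ∧ y ≠ w ∧ y ∈ F := by
  by_contra hc
  push Not at hc
  refine h.2 v (Set.ncard_eq_one.2 ⟨w, Set.eq_singleton_iff_unique_mem.2 ⟨⟨a, hw⟩, fun y hy => ?_⟩⟩)
  by_contra e
  exact hc y hy.1 e hy.2

open Classical in
/-- row sums of the adjacency matrix -/
noncomputable def row (G : SimpleGraph V) (v : V) : (V → ℚ) →ₗ[ℚ] ℚ :=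
  ∑ w, if G.Adj v w then LinearMap.proj w else 0

open Classical in
lemma row_apply (v : V) (x : V → ℚ) : row G v x = ∑ w, if G.Adj v w then x w else 0 := by
  rw [row, LinearMap.sum_apply]
  refine Finset.sum_congr rfl fun w _ => ?_
  split_ifs <;> rfl

lemma row_other {v w : V} {x : V → ℚ} (h : row G v x = 0) (a : G.Adj v w) (hw : x w ≠ 0) :
    ∃ y, G.Adj v y ∧ y ≠ w ∧ x y ≠ 0 := by
  by_contra hc
  push Not at hc
  rw [row_apply, Finset.sum_eq_single w (fun y _ e => by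
    split_ifs with b
    · exact hc y b e
    · rfl) (by simp), if_pos a] at h
  exact hw h

lemma null (hG : G.IsAcyclic) {F : Set V} (h : Fort G F) {u : V} (hu : u ∈ F) :
    ∃ x : V → ℚ, (∀ v, row G v x = 0) ∧ x u ≠ 0 ∧ ∀ v, v ∉ F → x v = 0 := by
  classical
  by_contra hc
  push Not at hc
  let L : V ⊕ V → (V → ℚ) →ₗ[ℚ] ℚ := Sum.elim (row G) fun v => if v ∈ F then 0 else LinearMap.proj v
  have : LinearMap.proj u ∈ span ℚ (L '' Set.univ) := (dual _ _ _).2 fun x hx => by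
    by_contra h0
    obtain ⟨v, hv, h1⟩ := hc x (fun v => hx (.inl v) trivial) h0
    exact h1 (by simpa [L, hv] using hx (.inr v) trivial)
  rw [Set.image_univ, mem_span_range_iff_exists_fun] at this
  obtain ⟨c, hc⟩ := this
  have key : ∀ w ∈ F, row G w (fun v => c (.inl v)) = if u = w then 1 else 0 := by
    intro w hw
    have := LinearMap.congr_fun hc (Pi.single w 1)
    rw [LinearMap.sum_apply, Fintype.sum_sum_type, Finset.sum_eq_zero (s := Finset.univ)
      (f := fun v => (c (.inr v) • L (.inr v)) (Pi.single w 1)) (fun v _ => by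
        by_cases hv : v ∈ F
        · simp [L, hv]
        · simp [L, hv, show v ≠ w from fun e => hv (e ▸ hw)]), add_zero] at this
    rw [row_apply]
    refine Eq.trans (Finset.sum_congr rfl fun v _ => ?_) (this.trans (by simp [Pi.single_apply]))
    have : row G v (Pi.single w 1) = if G.Adj w v then 1 else 0 := by
      rw [row_apply, Finset.sum_eq_single w (fun y _ e => by simp [e]) (by simp)]
      simp [G.adj_comm]
    simp [L, this]
  have grow : ∀ n, ∃ (x : V) (p : G.Walk x u), p.IsPath ∧ p.length = n + 1 ∧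
      ((c (.inl x) ≠ 0 ∧ p.snd ∈ F) ∨ (x ∈ F ∧ c (.inl p.snd) ≠ 0)) := by
    intro n
    induction n with
    | zero =>
      have := key u hu
      rw [if_pos rfl, row_apply] at this
      obtain ⟨v, -, hv⟩ := Finset.exists_ne_zero_of_sum_ne_zero (this.trans_ne one_ne_zero)
      have a : G.Adj u v := by by_contra e; simp [e] at hv
      exact ⟨v, .cons a.symm .nil, by simp [a.ne'], rfl, Or.inl ⟨by simpa [a] using hv, by simpa⟩⟩
    | succ n ih =>
      obtain ⟨x, p, hp, hl, hx⟩ := ih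
      have a : G.Adj x p.snd := p.adj_snd (Walk.not_nil_iff_lt_length.2 (by omega))
      have ext : ∀ y (b : G.Adj x y), y ≠ p.snd → (Walk.cons b.symm p).IsPath := fun y b e =>
        hp.cons fun m => e (hG.eq_snd_of_adj_start hp b m)
      rcases hx with ⟨h1, h2⟩ | ⟨h1, h2⟩
      · obtain ⟨y, b, e, hy⟩ := other h a h2
        exact ⟨y, .cons b.symm p, ext y b e, by simp [hl], Or.inr ⟨hy, by simpa⟩⟩
      · have hxu : u ≠ x := by
          rintro rfl
          have := Walk.length_eq_zero_iff.2 (Walk.isPath_iff_nil.1 hp)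
          omega
        obtain ⟨y, b, e, hy⟩ := row_other ((key x h1).trans (if_neg hxu)) a h2
        exact ⟨y, .cons b.symm p, ext y b e, by simp [hl], Or.inl ⟨hy, by simpa⟩⟩
  obtain ⟨x, p, hp, hl, -⟩ := grow (Fintype.card V)
  have := hp.length_lt
  omega

/-- the null space of the adjacency matrix -/
noncomputable def W (G : SimpleGraph V) : Submodule ℚ (V → ℚ) := ⨅ v, LinearMap.ker (row G v)

noncomputable def f (G : SimpleGraph V) (v : V) : W G →ₗ[ℚ] ℚ :=
  (LinearMap.proj v).comp (W G).subtype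

lemma blue_iff (hG : G.IsAcyclic) (S : Set V) (u : V) : Blue G S u ↔ f G u ∈ span ℚ (f G '' S) := by
  rw [dual]
  refine ⟨fun h x hx => ?_, fun h => ?_⟩
  · induction h with
    | init h => exact hx _ h
    | @force u w a _ ih =>
      by_contra h0
      obtain ⟨y, b, e, hy⟩ := row_other ((Submodule.mem_iInf _).1 x.2 u) a h0
      exact hy (ih y b e)
  · by_contra hc
    have : Fort G {v | ¬ Blue G S v} := ⟨⟨u, hc⟩, fun v h1 => by
      obtain ⟨w, hw⟩ := Set.ncard_eq_one.1 h1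
      obtain ⟨⟨a, b⟩, d⟩ := Set.eq_singleton_iff_unique_mem.1 hw
      exact b (.force a fun x ax e => by by_contra q; exact e (d x ⟨ax, q⟩))⟩
    obtain ⟨x, h1, h2, h3⟩ := null hG this hc
    exact h2 (h ⟨x, (Submodule.mem_iInf _).2 h1⟩ fun v hv => h3 v fun q => q (.init hv))

lemma ir_iff (hG : G.IsAcyclic) (S : Set V) : Ir G S ↔ LinearIndepOn ℚ (f G) S := by
  rw [linearIndepOn_iff_notMem_span]
  refine forall₂_congr fun u hu => ?_
  rw [dual]
  push Not
  refine ⟨fun ⟨F, hF, e⟩ => ?_, fun ⟨x, h1, h2⟩ => ⟨{v | x.1 v ≠ 0}, ⟨⟨u, h2⟩, fun v h3 => ?_⟩, ?_⟩⟩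
  · obtain ⟨⟨a, -⟩, d⟩ := Set.eq_singleton_iff_unique_mem.1 e
    obtain ⟨x, h1, h2, h3⟩ := null hG hF a
    exact ⟨⟨x, (Submodule.mem_iInf _).2 h1⟩, fun v hv => h3 v fun q => hv.2 (d v ⟨q, hv.1⟩), h2⟩
  · obtain ⟨w, hw⟩ := Set.ncard_eq_one.1 h3
    obtain ⟨⟨a, b⟩, d⟩ := Set.eq_singleton_iff_unique_mem.1 hw
    obtain ⟨y, p, e, hy⟩ := row_other ((Submodule.mem_iInf _).1 x.2 v) a b
    exact e (d y ⟨p, hy⟩)
  · refine Set.eq_singleton_iff_unique_mem.2 ⟨⟨h2, hu⟩, fun y hy => ?_⟩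
    by_contra e
    exact hy.1 (h1 y ⟨hy.2, e⟩)

lemma card_eq (hG : G.IsAcyclic) {S : Set V} (h1 : Ir G S) (h2 : Forcing G S) :
    S.ncard = Module.finrank ℚ (span ℚ (Set.range (f G))) := by
  classical
  have : span ℚ (Set.range (f G)) = span ℚ (Set.range fun v : S => f G v) := by
    refine le_antisymm (span_le.2 ?_) (span_mono ?_)
    · rintro _ ⟨v, rfl⟩
      rw [← Set.image_eq_range]
      exact (blue_iff hG S v).1 (h2 v)
    · rintro _ ⟨v, rfl⟩
      exact ⟨v, rfl⟩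
  rw [this, finrank_span_eq_card ((ir_iff hG S).1 h1), Fintype.card_eq_nat_card, Nat.card_coe_set_eq]

lemma max_card (hG : G.IsAcyclic) {S : Set V} (h : Maximal (Ir G) S) :
    S.ncard = Module.finrank ℚ (span ℚ (Set.range (f G))) :=
  card_eq hG h.1 fun v => by
    by_contra hc
    have := (ir_iff hG _).2 (((ir_iff hG S).1 h.1).insert fun q => hc ((blue_iff hG S v).2 q))
    exact hc (.init (h.2 this (Set.subset_insert _ _) (Set.mem_insert _ _)))

lemma min_card (hG : G.IsAcyclic) {S : Set V} (h : Minimal (Forcing G) S) :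
    S.ncard = Module.finrank ℚ (span ℚ (Set.range (f G))) := by
  refine card_eq hG ((ir_iff hG S).2 (linearIndepOn_iff_notMem_span.2 fun u hu q => ?_)) h.1
  have : Forcing G (S \ {u}) := fun v => (blue_iff hG _ v).2 (span_le.2 (by
    rintro _ ⟨w, hw, rfl⟩
    by_cases e : w = u
    · exact e ▸ q
    · exact subset_span ⟨w, ⟨hw, e⟩, rfl⟩) ((blue_iff hG S v).1 (h.1 v)))
  exact (h.2 this Set.sdiff_subset hu).2 rfl

/-- On forests the four skew parameters agree. -/
theorem result : ∀ (V : Type) [Fintype V] (G : SimpleGraph V), G.IsAcyclic →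
    zir G = z G ∧ z G = zbar G ∧ zbar G = zIR G := by
  intro V _ G hG
  set d := Module.finrank ℚ (span ℚ (Set.range (f G)))
  obtain ⟨A, -, hA⟩ := Finite.exists_le_maximal (p := Ir G) (a := ∅) (by simp [Ir])
  have hm : ∀ S, Forcing G S → ∃ B, B ≤ S ∧ Minimal (Forcing G) B := fun S h =>
    Finite.exists_le_minimal h
  obtain ⟨B, -, hB⟩ := hm Set.univ fun v => .init trivial
  have e1 : {k | ∃ S, Maximal (Ir G) S ∧ S.ncard = k} = {d} :=
    Set.eq_singleton_iff_unique_mem.2 ⟨⟨A, hA, max_card hG hA⟩, fun k ⟨S, h, e⟩ => e ▸ max_card hG h⟩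
  have e2 : {k | ∃ S, Minimal (Forcing G) S ∧ S.ncard = k} = {d} :=
    Set.eq_singleton_iff_unique_mem.2 ⟨⟨B, hB, min_card hG hB⟩, fun k ⟨S, h, e⟩ => e ▸ min_card hG h⟩
  have e3 : z G = d := IsLeast.csInf_eq ⟨⟨B, hB.1, min_card hG hB⟩, by
    rintro k ⟨S, h, rfl⟩
    obtain ⟨C, h1, h2⟩ := hm S h
    exact (min_card hG h2).symm.trans_le (Set.ncard_le_ncard h1)⟩
  simp [zir, zbar, zIR, e1, e2, e3]

end Pool.Agent.Results.MP_aa1485_co.Forest
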